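import Mathlib

set_option autoImplicit false

namespace Pool.Agent.H.MP_6f8178_al

open Polynomial

section Gen
variable {k A : Type} [Field k] [CommRing A] [Algebra k A]

/-- a subspace of a commutative algebra, as an abelian Lie algebra -/
def Ab (S : Submodule k A) : Type := S

instance (S : Submodule k A) : AddCommGroup (Ab S) := inferInstanceAs (AddCommGroup S)
instance (S : Submodule k A) : Module k (Ab S) := inferInstanceAs (Module k S)
instance (S : Submodule k A) : LieRing (Ab S) where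
  bracket := fun _ _ => 0
  add_lie := fun _ _ _ => (add_zero _).symm
  lie_add := fun _ _ _ => (add_zero _).symm
  lie_self := fun _ => rfl
  leibniz_lie := fun _ _ _ => (add_zero _).symm
instance (S : Submodule k A) : LieAlgebra k (Ab S) where
  lie_smul := fun t _ _ => (smul_zero t).symm

theorem br (S : Submodule k A) (x y : Ab S) : ⁅x, y⁆ = 0 := rfl

def inc (S : Submodule k A) : Ab S →ₗ[k] A := S.subtype

theorem inc_inj (S : Submodule k A) : Function.Injective (inc S) := S.injective_subtype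

def mk (S : Submodule k A) (x : A) (h : x ∈ S) : Ab S := (⟨x, h⟩ : S)

theorem inc_mk (S : Submodule k A) (x : A) (h : x ∈ S) : inc S (mk S x h) = x := rfl

theorem inc_mem (S : Submodule k A) (x : Ab S) : inc S x ∈ S := (show S from x).2

def pm (S : Submodule k A) (h : ∀ x ∈ S, x ^ 3 ∈ S) : Ab S → Ab S :=
  fun x => mk S (inc S x ^ 3) (h _ (inc_mem S x))

theorem inc_pm (S : Submodule k A) (h : ∀ x ∈ S, x ^ 3 ∈ S) (x : Ab S) :
    inc S (pm S h x) = inc S x ^ 3 := rfl

theorem inc_iter (S : Submodule k A) (h : ∀ x ∈ S, x ^ 3 ∈ S) (x : Ab S) (n : ℕ) :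
    inc S ((pm S h)^[n] x) = inc S x ^ (3 ^ n) := by
  induction n with
  | zero => simp
  | succ n ih => rw [Function.iterate_succ_apply', inc_pm, ih, ← pow_mul, pow_succ]

theorem notNZD [CharP k 3] (S : Submodule k A) (h : ∀ x ∈ S, x ^ 3 ∈ S)
    (x y z : A) (hx : x ∈ S) (hy : y ∈ S) (hz : z ∈ S) (a : k)
    (h1 : x ^ 3 = a • y ^ 3) (h2 : z ^ 3 = a ^ 2 • y ^ 3) (hne : z * y - x ^ 2 ≠ 0) :
    ¬ NoZeroDivisors (RingQuot (fun u v : UniversalEnvelopingAlgebra k (Ab S) =>
        ∃ w : Ab S, u = (UniversalEnvelopingAlgebra.ι k w) ^ 3 ∧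
          v = UniversalEnvelopingAlgebra.ι k (pm S h w))) := by
  intro hN
  set rel := (fun u v : UniversalEnvelopingAlgebra k (Ab S) =>
        ∃ w : Ab S, u = (UniversalEnvelopingAlgebra.ι k w) ^ 3 ∧
          v = UniversalEnvelopingAlgebra.ι k (pm S h w)) with hrel
  let : LieRing A := LieRing.ofAssociativeRing
  let : LieAlgebra k A := LieAlgebra.ofAssociativeAlgebra
  let φ : Ab S →ₗ⁅k⁆ A :=
    { inc S with
      map_lie' := fun {u v} => by
        show inc S ⁅u, v⁆ = inc S u * inc S v - inc S v * inc S u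
        rw [br, map_zero, mul_comm, sub_self] }
  have hφ : ∀ u, φ u = inc S u := fun _ => rfl
  let F : UniversalEnvelopingAlgebra k (Ab S) →ₐ[k] A := UniversalEnvelopingAlgebra.lift k φ
  have hF : ∀ u, F (UniversalEnvelopingAlgebra.ι k u) = inc S u := fun u =>
    UniversalEnvelopingAlgebra.lift_ι_apply k φ u
  have hw : ∀ ⦃u v⦄, rel u v → F u = F v := by
    rintro u v ⟨w, rfl, rfl⟩
    rw [map_pow, hF, hF, inc_pm]
  let G : RingQuot rel →ₐ[k] A := RingQuot.liftAlgHom k ⟨F, hw⟩
  let j : Ab S → RingQuot rel := fun u =>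
    RingQuot.mkAlgHom k rel (UniversalEnvelopingAlgebra.ι k u)
  have hG : ∀ u, G (j u) = inc S u := fun u => by
    show RingQuot.liftAlgHom k ⟨F, hw⟩ (RingQuot.mkAlgHom k rel _) = _
    rw [RingQuot.liftAlgHom_mkAlgHom_apply, hF]
  have hc : ∀ u v, Commute (j u) (j v) := fun u v => by
    let _ : LieRing (UniversalEnvelopingAlgebra k (Ab S)) := LieRing.ofAssociativeRing
    let _ : LieAlgebra k (UniversalEnvelopingAlgebra k (Ab S)) := LieAlgebra.ofAssociativeAlgebra
    have h0 := (UniversalEnvelopingAlgebra.ι k (L := Ab S)).map_lie u v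
    rw [br, map_zero] at h0
    have h3 : UniversalEnvelopingAlgebra.ι k u * UniversalEnvelopingAlgebra.ι k v
        - UniversalEnvelopingAlgebra.ι k v * UniversalEnvelopingAlgebra.ι k u = 0 := h0.symm
    have h4 := congrArg (RingQuot.mkAlgHom k rel) (sub_eq_zero.1 h3)
    rw [map_mul, map_mul] at h4
    exact h4
  have hp : ∀ u, j u ^ 3 = j (pm S h u) := fun u => by
    have := RingQuot.mkAlgHom_rel k (s := rel) ⟨u, rfl, rfl⟩
    rw [map_pow] at this
    exact this
  have hs : ∀ (c : k) u, j (c • u) = c • j u := fun c u => by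
    show RingQuot.mkAlgHom k rel _ = c • RingQuot.mkAlgHom k rel _
    rw [map_smul, map_smul]
  set X' := mk S x hx
  set Y' := mk S y hy
  set Z' := mk S z hz
  have e1 : pm S h X' = a • pm S h Y' := inc_inj S (by
    rw [map_smul, inc_pm, inc_pm, inc_mk, inc_mk, h1])
  have e2 : pm S h Z' = a ^ 2 • pm S h Y' := inc_inj S (by
    rw [map_smul, inc_pm, inc_pm, inc_mk, inc_mk, h2])
  have hA : Nontrivial A := ⟨⟨_, _, hne⟩⟩
  have hQ : Nontrivial (RingQuot rel) := G.toRingHom.domain_nontrivial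
  have hch : CharP (RingQuot rel) 3 :=
    charP_of_injective_algebraMap (algebraMap k (RingQuot rel)).injective 3
  have : Fact (Nat.Prime 3) := ⟨Nat.prime_three⟩
  have hcm : Commute (j Z' * j Y') (j X' ^ 2) :=
    Commute.pow_right (Commute.mul_left (hc _ _) (hc _ _)) 2
  have hn : (j Z' * j Y' - j X' ^ 2) ^ 3 = 0 := by
    rw [sub_pow_char_of_commute 3 hcm, (hc Z' Y').mul_pow, ← pow_mul, mul_comm 2 3, pow_mul,
      hp, hp, hp, e1, e2, hs, hs, smul_mul_assoc, _root_.smul_pow, sq (j (pm S h Y')), sub_self]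
  have hn0 : j Z' * j Y' - j X' ^ 2 = 0 := eq_zero_of_pow_eq_zero hn
  have := congrArg G hn0
  rw [map_sub, map_mul, map_pow, hG, hG, hG, map_zero, inc_mk, inc_mk, inc_mk] at this
  exact hne this

end Gen

section Poly
variable {k R : Type} [Field k] [CommRing R] [Algebra k R]

/-- polynomials without constant term whose coefficients lie in `M` -/
def SM (M : Submodule k R) : Submodule k R[X] where
  carrier := {w | w.coeff 0 = 0 ∧ ∀ n, w.coeff n ∈ M}
  add_mem' := fun {a b} ha hb => ⟨by rw [coeff_add, ha.1, hb.1, add_zero],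
    fun n => by rw [coeff_add]; exact M.add_mem (ha.2 n) (hb.2 n)⟩
  zero_mem' := ⟨by simp, fun n => by simp⟩
  smul_mem' := fun c w hw => ⟨by rw [coeff_smul, hw.1, smul_zero],
    fun n => by rw [coeff_smul]; exact M.smul_mem c (hw.2 n)⟩

theorem cube_mem [CharP R 3] (M : Submodule k R) (hM : ∀ c ∈ M, c ^ 3 ∈ M) :
    ∀ w ∈ SM M, w ^ 3 ∈ SM M := by
  have : Fact (Nat.Prime 3) := ⟨Nat.prime_three⟩
  intro w hw
  have e : w ^ 3 = map (frobenius R 3) (expand R 3 w) := (map_frobenius_expand 3 w).symm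
  refine ⟨?_, fun n => ?_⟩
  · rw [e, coeff_map, coeff_expand (by norm_num)]
    simp [hw.1]
  · rw [e, coeff_map, coeff_expand (by norm_num)]
    split_ifs
    · rw [frobenius_def]; exact hM _ (hw.2 _)
    · rw [map_zero]; exact M.zero_mem

theorem li_pow [Nontrivial R] (w : R[X]) (hu : IsUnit w.leadingCoeff) (hd : 0 < w.natDegree) :
    LinearIndependent k (fun n : ℕ => w ^ (3 ^ n)) := by
  classical
  have hl : ∀ m : ℕ, w.leadingCoeff ^ m ≠ 0 := fun m => (hu.pow m).ne_zero
  have hdeg : ∀ m : ℕ, (w ^ m).natDegree = m * w.natDegree := fun m => natDegree_pow' (hl m)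
  have hlc : ∀ m : ℕ, (w ^ m).leadingCoeff = w.leadingCoeff ^ m := fun m => leadingCoeff_pow' (hl m)
  rw [linearIndependent_iff']
  intro s g hs
  by_contra hcon
  push Not at hcon
  have hne : (s.filter (fun i => g i ≠ 0)).Nonempty := by
    obtain ⟨i, hi, hg⟩ := hcon
    exact ⟨i, Finset.mem_filter.2 ⟨hi, hg⟩⟩
  set m := (s.filter (fun i => g i ≠ 0)).max' hne with hm
  have hmem := Finset.mem_filter.1 ((s.filter (fun i => g i ≠ 0)).max'_mem hne)
  rw [← hm] at hmem
  have hc := congrArg (fun q : R[X] => q.coeff (3 ^ m * w.natDegree)) hs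
  simp only [finsetSum_coeff, coeff_smul, coeff_zero] at hc
  rw [Finset.sum_eq_single m] at hc
  · rw [← hdeg, coeff_natDegree, hlc] at hc
    have h5 : algebraMap k R (g m) * w.leadingCoeff ^ (3 ^ m) = 0 := by
      rw [← Algebra.smul_def]; exact hc
    exact (((IsUnit.mk0 _ hmem.2).map (algebraMap k R)).mul (hu.pow _)).ne_zero h5
  · intro b hb hbm
    by_cases hg : g b = 0
    · rw [hg, zero_smul]
    · have hle : b ≤ m := Finset.le_max' _ b (Finset.mem_filter.2 ⟨hb, hg⟩)
      have hlt : b < m := lt_of_le_of_ne hle hbm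
      rw [coeff_eq_zero_of_natDegree_lt, smul_zero]
      rw [hdeg]
      exact Nat.mul_lt_mul_of_pos_right (Nat.pow_lt_pow_right (by norm_num) hlt) hd
  · intro h; exact absurd hmem.1 h

theorem noalg [Nontrivial R] (M : Submodule k R) (h : ∀ w ∈ SM M, w ^ 3 ∈ SM M)
    (hu : ∀ c ∈ M, c ≠ 0 → IsUnit c) (x : Ab (SM M)) (hx : x ≠ 0) :
    LinearIndependent k (fun n : ℕ => (pm (SM M) h)^[n] x) := by
  apply LinearIndependent.of_comp (inc (SM M))
  have e : (inc (SM M)) ∘ (fun n : ℕ => (pm (SM M) h)^[n] x)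
      = fun n : ℕ => inc (SM M) x ^ (3 ^ n) := funext fun n => inc_iter _ _ _ _
  rw [e]
  have h0 : inc (SM M) x ≠ 0 := fun h => hx (inc_inj _ (by rw [h, map_zero]))
  have hm := inc_mem (SM M) x
  apply li_pow
  · exact hu _ (hm.2 _) (leadingCoeff_ne_zero.2 h0)
  · by_contra hd
    have hd0 : (inc (SM M) x).natDegree = 0 := by omega
    apply h0
    rw [eq_C_of_natDegree_eq_zero hd0, hm.1, map_zero]

end Poly

/-- `1, t, t^2` are independent over the cubes, polynomial form -/
theorem indepP (P Q S : (ZMod 3)[X]) (h : P ^ 3 + Q ^ 3 * X + S ^ 3 * X ^ 2 = 0) :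
    P = 0 ∧ Q = 0 ∧ S = 0 := by
  have : Fact (Nat.Prime 3) := ⟨Nat.prime_three⟩
  have h3 : (3 : (ZMod 3)[X]) = 0 := by
    have := CharP.cast_eq_zero (ZMod 3)[X] 3
    exact_mod_cast this
  have hd : ∀ T : (ZMod 3)[X], derivative (T ^ 3) = 0 := fun T => by
    rw [derivative_pow]
    have : (C ((3 : ℕ) : ZMod 3) : (ZMod 3)[X]) = 0 := by
      rw [show ((3 : ℕ) : ZMod 3) = 0 from rfl, map_zero]
    rw [this]; simp
  have h1 := congrArg derivative h
  simp only [map_add, derivative_mul, hd, derivative_X, derivative_X_pow, map_zero] at h1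
  have h1' : Q ^ 3 - S ^ 3 * X = 0 := by
    have e : (C ((2 : ℕ) : ZMod 3) : (ZMod 3)[X]) = 2 := rfl
    rw [e] at h1
    linear_combination h1 - (S ^ 3 * X) * h3
  have h2 := congrArg derivative h1'
  simp only [map_sub, derivative_mul, hd, derivative_X, map_zero] at h2
  have hS : S = 0 := eq_zero_of_pow_eq_zero (n := 3) (by linear_combination -h2)
  subst hS
  have hQ : Q = 0 := eq_zero_of_pow_eq_zero (n := 3) (by linear_combination h1')
  subst hQ
  have hP : P = 0 := eq_zero_of_pow_eq_zero (n := 3) (by linear_combination h)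
  exact ⟨hP, rfl, rfl⟩

instance : Fact (Nat.Prime 3) := ⟨Nat.prime_three⟩

abbrev K : Type := RatFunc (ZMod 3)

theorem indepK (l m n : K) (h : l ^ 3 + m ^ 3 * RatFunc.X + n ^ 3 * RatFunc.X ^ 2 = 0) :
    l = 0 ∧ m = 0 ∧ n = 0 := by
  have key : ∀ q : K, algebraMap (ZMod 3)[X] K q.num = q * algebraMap (ZMod 3)[X] K q.denom :=
    fun q => by
      have h0 : algebraMap (ZMod 3)[X] K q.denom ≠ 0 := RatFunc.algebraMap_ne_zero q.denom_ne_zero
      have := RatFunc.num_div_denom q
      rw [div_eq_iff h0] at this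
      exact this
  have hz := indepP (l.num * m.denom * n.denom) (m.num * l.denom * n.denom)
    (n.num * l.denom * m.denom) (by
      apply RatFunc.algebraMap_injective (ZMod 3)
      simp only [map_add, map_mul, map_pow, map_zero, RatFunc.algebraMap_X, key]
      linear_combination (algebraMap (ZMod 3)[X] K l.denom * algebraMap (ZMod 3)[X] K m.denom
        * algebraMap (ZMod 3)[X] K n.denom) ^ 3 * h)
  have d1 := l.denom_ne_zero
  have d2 := m.denom_ne_zero
  have d3 := n.denom_ne_zero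
  simp only [mul_eq_zero, d1, d2, d3, or_false, RatFunc.num_eq_zero_iff] at hz
  exact hz

noncomputable abbrev B : Type := AdjoinRoot (X ^ 3 - C (RatFunc.X : K))

instance : Nontrivial B := AdjoinRoot.nontrivial _ (by
  rw [degree_X_pow_sub_C (by norm_num)]; norm_num)

noncomputable abbrev R : Type := DualNumber B

instance : CharP K 3 := inferInstance

instance : CharP R 3 := charP_of_injective_algebraMap (algebraMap K R).injective 3

noncomputable def al : R := algebraMap B R (AdjoinRoot.root _)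
noncomputable def be : R := al ^ 2 + DualNumber.eps

theorem al3 : al ^ 3 = algebraMap K R RatFunc.X := by
  have h := AdjoinRoot.eval₂_root (X ^ 3 - C (RatFunc.X : K))
  rw [eval₂_sub, eval₂_pow, eval₂_X, eval₂_C, sub_eq_zero] at h
  rw [al, ← map_pow, h, IsScalarTower.algebraMap_apply K B R]
  rfl

theorem be3 : be ^ 3 = algebraMap K R (RatFunc.X ^ 2) := by
  rw [be, add_pow_char, ← pow_mul, mul_comm 2 3, pow_mul, al3, map_pow,
    show (DualNumber.eps : R) ^ 3 = 0 by
      rw [pow_succ, sq, DualNumber.eps_mul_eps, zero_mul], add_zero]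

noncomputable def M : Submodule K R where
  carrier := {c | ∃ l m n : K, c = algebraMap K R l + algebraMap K R m * al + algebraMap K R n * be}
  add_mem' := by
    rintro _ _ ⟨l, m, n, rfl⟩ ⟨l', m', n', rfl⟩
    exact ⟨l + l', m + m', n + n', by simp only [map_add]; ring⟩
  zero_mem' := ⟨0, 0, 0, by simp⟩
  smul_mem' := by
    rintro c _ ⟨l, m, n, rfl⟩
    exact ⟨c * l, c * m, c * n, by simp only [map_mul, Algebra.smul_def]; ring⟩

theorem cubeM (l m n : K) :
    (algebraMap K R l + algebraMap K R m * al + algebraMap K R n * be) ^ 3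
      = algebraMap K R (l ^ 3 + m ^ 3 * RatFunc.X + n ^ 3 * RatFunc.X ^ 2) := by
  rw [add_pow_char, add_pow_char, mul_pow, mul_pow, al3, be3]
  simp only [map_add, map_mul, map_pow]

theorem M_cube : ∀ c ∈ M, c ^ 3 ∈ M := by
  rintro _ ⟨l, m, n, rfl⟩
  exact ⟨l ^ 3 + m ^ 3 * RatFunc.X + n ^ 3 * RatFunc.X ^ 2, 0, 0, by rw [cubeM]; simp⟩

theorem M_unit : ∀ c ∈ M, c ≠ 0 → IsUnit c := by
  rintro _ ⟨l, m, n, rfl⟩ hc
  rw [← isUnit_pow_iff (n := 3) (by norm_num), cubeM]
  refine (IsUnit.mk0 _ fun h => hc ?_).map _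
  obtain ⟨rfl, rfl, rfl⟩ := indepK l m n h
  simp

theorem CX_mem (c : R) (hc : c ∈ M) : C c * X ∈ SM M := by
  refine ⟨by simp, fun n => ?_⟩
  rw [coeff_C_mul, coeff_X]
  split_ifs
  · rw [mul_one]; exact hc
  · rw [mul_zero]; exact M.zero_mem

theorem main : ¬ NoZeroDivisors (RingQuot (fun u v : UniversalEnvelopingAlgebra K (Ab (SM M)) =>
        ∃ w : Ab (SM M), u = (UniversalEnvelopingAlgebra.ι K w) ^ 3 ∧
          v = UniversalEnvelopingAlgebra.ι K (pm (SM M) (cube_mem M M_cube) w))) := by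
  refine notNZD (SM M) _ (C al * X) (C 1 * X) (C be * X)
    (CX_mem _ ⟨0, 1, 0, by simp⟩) (CX_mem _ ⟨1, 0, 0, by simp⟩) (CX_mem _ ⟨0, 0, 1, by simp⟩)
    RatFunc.X ?_ ?_ ?_
  · rw [mul_pow, ← map_pow, al3, map_one, one_mul, Algebra.smul_def, Polynomial.algebraMap_apply]
  · rw [mul_pow, ← map_pow, be3, map_one, one_mul, Algebra.smul_def, Polynomial.algebraMap_apply]
  · intro h
    have e : (C be * X * (C 1 * X) - (C al * X) ^ 2 : R[X]) = C DualNumber.eps * X ^ 2 := by
      rw [be]; simp only [map_add, map_pow, map_one]; ring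
    rw [e] at h
    have h2 := congrArg (fun q : R[X] => q.coeff 2) h
    simp only [coeff_C_mul, coeff_X_pow, if_true, mul_one, coeff_zero] at h2
    have h3 := congrArg TrivSqZeroExt.snd h2
    simp at h3

end Pool.Agent.H.MP_6f8178_al
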